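import Mathlib
import Pool.Agent.H63R3.MaxDeg

/-!
# The least maximum degree of `k`-chromatic graphs without `K_{k-1}` is at most `k + 3`

`f(6) ≤ 6`, `f(7) ≤ 8`, `f(8) ≤ 8`, `f(k) ≤ k + 1` for `9 ≤ k ≤ 13`, `f(k) ≤ k + 2` for
`14 ≤ k ≤ 18` and `f(k) ≤ k + 3` for all `k ≥ 7`.
-/

open SimpleGraph

namespace Pool.Agent.Results.MP_551fda_co.WithinThree

open Pool.Agent.H63R3.MaxDeg

/-- The connection set `{2, 3, 5, 6, 8, 9}` modulo 11. -/
def t11 (x : Fin 11) : Bool := x.val ∈ [2, 3, 5, 6, 8, 9]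

/-- The connection set `{2, 3, 4, 6, 7, 9, 10, 11}` modulo 13. -/
def t13 (x : Fin 13) : Bool := x.val ∈ [2, 3, 4, 6, 7, 9, 10, 11]

lemma ncard_neighborSet {n D : ℕ} [NeZero n] (t : Fin n → Bool)
    (h : ∀ v, (Finset.univ.filter fun x => (circ n t).Adj v x).card ≤ D) (v : Fin n) :
    ((circ n t).neighborSet v).ncard ≤ D := by
  refine le_trans (le_of_eq ?_) (h v)
  rw [← Set.ncard_coe_finset]
  congr 1
  ext x
  simp

lemma witness_six : Witness 5 6 := by
  refine ⟨Fin 11, inferInstance, circ 11 t11, ?_, ?_, ?_⟩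
  · apply not_colorable
    · simp
    · decide +kernel
  · apply cliqueFree_five
    decide +kernel
  · apply ncard_neighborSet
    decide +kernel

lemma witness_seven : Witness 6 8 := by
  refine ⟨Fin 13, inferInstance, circ 13 t13, ?_, ?_, ?_⟩
  · apply not_colorable
    · simp
    · decide +kernel
  · have h : (circ 13 t13).CliqueFree 5 := by
      apply cliqueFree_five
      decide +kernel
    exact h.mono (by norm_num)
  · apply ncard_neighborSet
    decide +kernel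

/-- The part sizes of the blow-ups of the 5-cycle used for `8 ≤ k ≤ 18`. -/
def wt : ℕ → Fin 5 → ℕ
  | 8 => ![3, 3, 3, 3, 3]
  | 9 => ![3, 3, 4, 3, 4]
  | 10 => ![3, 4, 4, 3, 5]
  | 11 => ![3, 5, 4, 4, 5]
  | 12 => ![4, 5, 4, 5, 5]
  | 13 => ![5, 5, 5, 5, 5]
  | 14 => ![3, 7, 5, 5, 7]
  | 15 => ![4, 7, 5, 6, 7]
  | 16 => ![5, 7, 5, 7, 7]
  | 17 => ![6, 7, 6, 7, 7]
  | 18 => ![7, 7, 7, 7, 7]
  | _ => fun _ => 0

lemma le_of_wt (k D : ℕ) (hk : 1 ≤ k)
    (h : 2 * (k - 1) < wt k 0 + wt k 1 + wt k 2 + wt k 3 + wt k 4 ∧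
      (∀ i, wt k i + wt k (i + 1) < k - 1) ∧
      ∀ i, wt k (i - 1) + wt k i + wt k (i + 1) ≤ D + 1) : f k ≤ D := by
  have h1 := f_le (blowup_witness (wt k) (k - 1) D h.1 h.2.1 h.2.2)
  rwa [Nat.sub_add_cancel hk] at h1

theorem result :
    f 6 ≤ 6 ∧ f 7 ≤ 8 ∧ f 8 ≤ 8 ∧ (∀ k, 9 ≤ k → k ≤ 13 → f k ≤ k + 1) ∧
      (∀ k, 14 ≤ k → k ≤ 18 → f k ≤ k + 2) ∧ ∀ k, 7 ≤ k → f k ≤ k + 3 := by
  refine ⟨f_le witness_six, f_le witness_seven, ?_, ?_, ?_, ?_⟩
  · exact le_of_wt 8 8 (by norm_num) (by decide)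
  · intro k h1 h2
    interval_cases k
    · exact le_of_wt 9 10 (by norm_num) (by decide)
    · exact le_of_wt 10 11 (by norm_num) (by decide)
    · exact le_of_wt 11 12 (by norm_num) (by decide)
    · exact le_of_wt 12 13 (by norm_num) (by decide)
    · exact le_of_wt 13 14 (by norm_num) (by decide)
  · intro k h1 h2
    interval_cases k
    · exact le_of_wt 14 16 (by norm_num) (by decide)
    · exact le_of_wt 15 17 (by norm_num) (by decide)
    · exact le_of_wt 16 18 (by norm_num) (by decide)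
    · exact le_of_wt 17 19 (by norm_num) (by decide)
    · exact le_of_wt 18 20 (by norm_num) (by decide)
  · intro k hk
    obtain ⟨a, rfl⟩ : ∃ a, k = a + 6 := ⟨k - 6, by omega⟩
    have := f_le (join_witness a)
    exact this

end Pool.Agent.Results.MP_551fda_co.WithinThree
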